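import Mathlib
import Pool.Agent.W926.PS.Stm

set_option autoImplicit false

open Finset

namespace Pool.Agent.W138.PS

open W926.PS

/-- the property -/
def Pr {s : ℕ} (t : Fin 5 → Fin s) : Prop :=
  ∀ i k : Fin 5, i < k → t i = t k → ∃ h : Fin 5, i < h ∧ h < k ∧ t h < t i

instance {s : ℕ} (t : Fin 5 → Fin s) : Decidable (Pr t) := by unfold Pr; infer_instance

lemma red {p : Fin 5 → ℕ} (hp : ∀ i k, i < k → p i = p k → ∃ h, i < h ∧ h < k ∧ p h < p i)
    {s : ℕ} (hs : (univ.image p).card = s) :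
    ∃ (d : Fin s ↪o ℕ) (t : Fin 5 → Fin s), (∀ i, p i = d (t i)) ∧ Pr t ∧
      ∀ j, ∃ i, t i = j := by
  classical
  set d := (univ.image p).orderEmbOfFin hs with hd
  have hr : Set.range d = ((univ.image p : Finset ℕ) : Set ℕ) :=
    Finset.range_orderEmbOfFin _ hs
  have ht : ∀ i, ∃ j, d j = p i := by
    intro i
    have : p i ∈ Set.range d := by
      rw [hr]; simp
    exact this
  choose t ht using ht
  refine ⟨d, t, fun i => (ht i).symm, ?_, ?_⟩
  · intro i k hik h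
    obtain ⟨l, h1, h2, h3⟩ := hp i k hik (by rw [← ht i, ← ht k, h])
    refine ⟨l, h1, h2, ?_⟩
    rw [← ht i, ← ht l] at h3
    exact d.lt_iff_lt.1 h3
  · intro j
    have : d j ∈ Set.range d := ⟨j, rfl⟩
    rw [hr] at this
    simp only [coe_image, coe_univ, Set.image_univ, Set.mem_range] at this
    obtain ⟨i, hi⟩ := this
    exact ⟨i, d.injective (by rw [ht i, hi])⟩

lemma no1 : ∀ a b c e f : Fin 1, ¬ Pr ![a, b, c, e, f] := by decide +kernel

lemma no2 : ∀ a b c e f : Fin 2, ¬ Pr ![a, b, c, e, f] := by decide +kernel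

lemma yes3 : ∀ a b c e f : Fin 3, Pr ![a, b, c, e, f] →
    (∀ j : Fin 3, ∃ i, ![a, b, c, e, f] i = j) →
    (![a, b, c, e, f] = ![2, 1, 2, 0, 2] ∨ ![a, b, c, e, f] = ![2, 0, 2, 1, 2] ∨
     ![a, b, c, e, f] = ![2, 1, 2, 0, 1] ∨ ![a, b, c, e, f] = ![1, 0, 2, 1, 2] ∨
     ![a, b, c, e, f] = ![2, 1, 0, 2, 1] ∨ ![a, b, c, e, f] = ![2, 1, 0, 1, 2] ∨
     ![a, b, c, e, f] = ![1, 2, 0, 2, 1] ∨ ![a, b, c, e, f] = ![1, 2, 0, 1, 2]) := by
  decide +kernel

lemma vec {α : Type*} (t : Fin 5 → α) : t = ![t 0, t 1, t 2, t 3, t 4] := by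
  funext i
  fin_cases i <;> rfl

theorem seq : S_SEQ := by
  intro p hp
  constructor
  · by_contra hlt
    push Not at hlt
    obtain ⟨s, hs⟩ : ∃ s, (univ.image p).card = s := ⟨_, rfl⟩
    obtain ⟨d, t, _, h2, _⟩ := red hp hs
    rw [hs] at hlt
    rw [vec t] at h2
    interval_cases s
    · exact (t 0).elim0
    · exact no1 _ _ _ _ _ h2
    · exact no2 _ _ _ _ _ h2
  · intro hs
    obtain ⟨d, t, h1, h2, h3⟩ := red hp hs
    refine ⟨d, d.lt_iff_lt.2 (by decide), d.lt_iff_lt.2 (by decide), ?_⟩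
    have hp' : p = fun i => d (t i) := funext h1
    rw [vec t] at h2 h3
    have key := yes3 _ _ _ _ _ h2 h3
    rw [← vec t] at key
    have hv : ∀ v : Fin 5 → Fin 3, t = v → p = ![d (v 0), d (v 1), d (v 2), d (v 3), d (v 4)] := by
      intro v hv
      rw [hp', hv]
      exact vec _
    rcases key with h | h | h | h | h | h | h | h
    · exact Or.inl (hv _ h)
    · exact Or.inr (Or.inl (hv _ h))
    · exact Or.inr (Or.inr (Or.inl (hv _ h)))
    · exact Or.inr (Or.inr (Or.inr (Or.inl (hv _ h))))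
    · exact Or.inr (Or.inr (Or.inr (Or.inr (Or.inl (hv _ h)))))
    · exact Or.inr (Or.inr (Or.inr (Or.inr (Or.inr (Or.inl (hv _ h))))))
    · exact Or.inr (Or.inr (Or.inr (Or.inr (Or.inr (Or.inr (Or.inl (hv _ h)))))))
    · exact Or.inr (Or.inr (Or.inr (Or.inr (Or.inr (Or.inr (Or.inr (hv _ h)))))))

end Pool.Agent.W138.PS
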